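import Mathlib
import Pool.Agent.Y57.AK.Stm3

/-!
# AK-GAP1: greedy partition into translates of a proper progression, weighted form

Adapted from `Pool.Agent.Y429.AK.GAP` (helper429).
-/

set_option autoImplicit false

open Finset

namespace Pool.Agent.Y918.AK

open Pool.Agent.Y57.AK

/-- double counting -/
theorem double (D Z : Finset ℤ) (S : ℤ → Finset ℤ) (hS : ∀ d ∈ D, S d ⊆ Z) :
    ∑ z ∈ Z, (D.filter fun d => z ∈ S d).card = ∑ d ∈ D, (S d).card := by
  simp_rw [card_filter]
  rw [sum_comm]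
  refine sum_congr rfl fun d hd => ?_
  rw [← card_filter]
  congr 1
  ext z
  rw [mem_filter]
  exact ⟨fun h => h.2, fun h => ⟨hS d hd h, h⟩⟩

/-- averaging -/
theorem avg (D : Finset ℤ) (hD : D.Nonempty) (I U : ℤ → Finset ℤ) (τ : ℝ)
    (hI : ∀ d ∈ D, (I d).Nonempty) (hIU : ∀ d ∈ D, I d ⊆ U d)
    (hτ : ∀ d ∈ D, τ * (U d).card ≤ (I d).card) :
    ∃ z, (D.filter fun d => z ∈ U d).Nonempty ∧
      τ * (D.filter fun d => z ∈ U d).card ≤ (D.filter fun d => z ∈ I d).card := by
  by_contra hcon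
  push Not at hcon
  have hUZ : ∀ d ∈ D, U d ⊆ D.biUnion U := fun d hd => subset_biUnion_of_mem U hd
  have hIZ : ∀ d ∈ D, I d ⊆ D.biUnion U := fun d hd => (hIU d hd).trans (hUZ d hd)
  have hZ : (D.biUnion U).Nonempty := by
    obtain ⟨d, hd⟩ := hD
    obtain ⟨z, hz⟩ := hI d hd
    exact ⟨z, hIZ d hd hz⟩
  have h1 : ∑ z ∈ D.biUnion U, ((D.filter fun d => z ∈ I d).card : ℝ) <
      ∑ z ∈ D.biUnion U, τ * ((D.filter fun d => z ∈ U d).card : ℝ) := by
    refine sum_lt_sum_of_nonempty hZ fun z hz => hcon z ?_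
    obtain ⟨d, hd, hzd⟩ := mem_biUnion.mp hz
    exact ⟨d, mem_filter.mpr ⟨hd, hzd⟩⟩
  rw [← mul_sum, ← Nat.cast_sum, ← Nat.cast_sum, double D _ I hIZ, double D _ U hUZ,
    Nat.cast_sum, Nat.cast_sum, mul_sum] at h1
  exact absurd (sum_le_sum hτ) (not_le.mpr h1)

/-- the coefficients are unique -/
theorem uniq {n K L : ℕ} {g : Fin n → ℤ} (hD : Dissoc K g) (hLK : L ≤ K) {p q : Fin n → ℤ}
    (hp : ∀ i, 0 ≤ p i ∧ p i < L) (hq : ∀ i, 0 ≤ q i ∧ q i < L)
    (h : ∑ i, p i * g i = ∑ i, q i * g i) : p = q := by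
  have h1 := hD (p - q) (fun i => by
    have h2 := hp i
    have h3 := hq i
    rw [Pi.sub_apply, abs_le]
    constructor <;> omega) (by
    simp only [Pi.sub_apply, sub_mul, sum_sub_distrib, h, sub_self])
  exact sub_eq_zero.mp h1

/-- the induction -/
theorem claim {n k L : ℕ} {g : Fin n → ℤ} {τ : ℝ} (hτ : 0 ≤ τ) (hg : Dissoc (2 * L) g)
    (R : ℤ → Fin n → ℕ) (y : ℤ → ℤ) (D : Finset ℤ) :
    (∀ d ∈ D, (∀ i, k * R d i < L) ∧ d = ∑ i, (R d i : ℤ) * g i ∧
      τ * ∏ i, ((L : ℝ) + k * R d i) ≤ ∏ i, ((L : ℝ) - k * R d i)) →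
      ∃ G ⊆ D, ∃ Y φ : ℤ → Fin n → ℤ, τ * D.card ≤ G.card ∧
        ∀ d ∈ G, ∀ j ≤ k, φ (y d + (j : ℤ) * d) = fun i => Y d i + (j : ℤ) * (R d i : ℤ) := by
  classical
  induction D using Finset.strongInduction with
  | H D ih =>
    intro hD
    rcases D.eq_empty_or_nonempty with rfl | hne
    · exact ⟨∅, subset_rfl, fun _ _ => 0, fun _ _ => 0, by simp, by simp⟩
    obtain ⟨T, hT⟩ : ∃ T : ℤ → Finset (Fin n → ℤ), T = fun d =>
        Fintype.piFinset fun i : Fin n => Finset.Ico (0 : ℤ) ((L - k * R d i : ℕ) : ℤ) := ⟨_, rfl⟩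
    obtain ⟨C, hC⟩ : ∃ C : ℤ → Finset (Fin n → ℤ), C = fun d =>
        Fintype.piFinset fun i : Fin n => Finset.Ioc (-(L : ℤ)) ((k * R d i : ℕ) : ℤ) := ⟨_, rfl⟩
    have mT : ∀ d t, t ∈ T d ↔ ∀ i, 0 ≤ t i ∧ t i < ((L - k * R d i : ℕ) : ℤ) := fun d t => by
      rw [hT, Fintype.mem_piFinset]
      simp only [Finset.mem_Ico]
    have mC : ∀ d c, c ∈ C d ↔ ∀ i, -(L : ℤ) < c i ∧ c i ≤ ((k * R d i : ℕ) : ℤ) := fun d c => by
      rw [hC, Fintype.mem_piFinset]
      simp only [Finset.mem_Ioc]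
    obtain ⟨I, hI⟩ : ∃ I : ℤ → Finset ℤ, ∀ d, I d = (T d).image fun t => y d - ∑ i, t i * g i :=
      ⟨_, fun _ => rfl⟩
    obtain ⟨U, hU⟩ : ∃ U : ℤ → Finset ℤ, ∀ d, U d = (C d).image fun c => y d + ∑ i, c i * g i :=
      ⟨_, fun _ => rfl⟩
    have cT : ∀ d, (T d).card = ∏ i, (L - k * R d i) := by
      intro d
      rw [hT, Fintype.card_piFinset]
      refine prod_congr rfl fun i _ => ?_
      rw [Int.card_Ico]
      omega
    have cC : ∀ d, (C d).card = ∏ i, (L + k * R d i) := by
      intro d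
      rw [hC, Fintype.card_piFinset]
      refine prod_congr rfl fun i _ => ?_
      rw [Int.card_Ioc]
      omega
    have hIc : ∀ d ∈ D, (I d).card = ∏ i, (L - k * R d i) := by
      intro d hd
      rw [hI, card_image_of_injOn, cT]
      intro t ht t' ht' h
      have h1 : ∑ i, t i * g i = ∑ i, t' i * g i := by
        have h2 : y d - ∑ i, t i * g i = y d - ∑ i, t' i * g i := h
        linarith
      have b1 := (mT d t).mp (mem_coe.mp ht)
      have b2 := (mT d t').mp (mem_coe.mp ht')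
      refine uniq (L := L) hg (by omega) (fun i => ?_) (fun i => ?_) h1
      · have := b1 i
        constructor
        · exact this.1
        · have h3 := this.2
          omega
      · have := b2 i
        constructor
        · exact this.1
        · have h3 := this.2
          omega
    have hUc : ∀ d ∈ D, (U d).card ≤ ∏ i, (L + k * R d i) := by
      intro d _
      rw [hU, ← cC]
      exact card_image_le
    have hIU : ∀ d ∈ D, I d ⊆ U d := by
      intro d _ x hx
      rw [hI, mem_image] at hx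
      obtain ⟨t, ht, rfl⟩ := hx
      rw [mT] at ht
      rw [hU, mem_image]
      refine ⟨fun i => -t i, ?_, ?_⟩
      · rw [mC]
        intro i
        have := ht i
        constructor
        · show -(L : ℤ) < -t i
          omega
        · show -t i ≤ ((k * R d i : ℕ) : ℤ)
          have h3 := this.1
          omega
      · simp only [neg_mul, sum_neg_distrib]
        ring
    have hIn : ∀ d ∈ D, (I d).Nonempty := by
      intro d hd
      rw [← card_pos, hIc d hd]
      refine prod_pos fun i _ => ?_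
      have := (hD d hd).1 i
      omega
    have hτd : ∀ d ∈ D, τ * (U d).card ≤ (I d).card := by
      intro d hd
      have h1 : ((U d).card : ℝ) ≤ ∏ i, ((L : ℝ) + k * R d i) := by
        have h2 : ((U d).card : ℝ) ≤ ((∏ i, (L + k * R d i) : ℕ) : ℝ) := by
          exact_mod_cast hUc d hd
        refine h2.trans (le_of_eq ?_)
        push_cast
        rfl
      have h3 : ((I d).card : ℝ) = ∏ i, ((L : ℝ) - k * R d i) := by
        rw [hIc d hd, Nat.cast_prod]
        refine prod_congr rfl fun i _ => ?_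
        rw [Nat.cast_sub ((hD d hd).1 i).le]
        push_cast
        rfl
      rw [h3]
      exact (mul_le_mul_of_nonneg_left h1 hτ).trans (hD d hd).2.2
    obtain ⟨z, hz1, hz2⟩ := avg D hne I U τ hIn hIU hτd
    obtain ⟨meet, hmeet⟩ : ∃ s : Finset ℤ, s = D.filter fun d => z ∈ U d := ⟨_, rfl⟩
    obtain ⟨full, hfull⟩ : ∃ s : Finset ℤ, s = D.filter fun d => z ∈ I d := ⟨_, rfl⟩
    rw [← hmeet] at hz1 hz2
    rw [← hfull] at hz2
    have hmD : meet ⊆ D := by
      rw [hmeet]
      exact filter_subset _ _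
    have hfm : full ⊆ meet := by
      intro d hd
      rw [hfull, mem_filter] at hd
      rw [hmeet, mem_filter]
      exact ⟨hd.1, hIU d hd.1 hd.2⟩
    obtain ⟨G', hG', Y', φ', hc', hφ'⟩ := ih (D \ meet) (sdiff_ssubset hmD hz1)
      (fun d hd => hD d (mem_sdiff.mp hd).1)
    -- the translates
    have ht0 : ∀ d, ∃ t : Fin n → ℤ, d ∈ full →
        (∀ i, 0 ≤ t i ∧ t i < ((L - k * R d i : ℕ) : ℤ)) ∧ z = y d - ∑ i, t i * g i := by
      intro d
      by_cases hd : d ∈ full
      · rw [hfull, mem_filter, hI, mem_image] at hd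
        obtain ⟨_, t, ht, htz⟩ := hd
        exact ⟨t, fun _ => ⟨(mT d t).mp ht, htz.symm⟩⟩
      · exact ⟨0, fun h => absurd h hd⟩
    choose t ht using ht0
    have hp0 : ∀ x, ∃ p : Fin n → ℤ,
        (∃ p' : Fin n → ℤ, (∀ i, 0 ≤ p' i ∧ p' i < (L : ℤ)) ∧ x = z + ∑ i, p' i * g i) →
        (∀ i, 0 ≤ p i ∧ p i < (L : ℤ)) ∧ x = z + ∑ i, p i * g i := by
      intro x
      by_cases hx : ∃ p' : Fin n → ℤ, (∀ i, 0 ≤ p' i ∧ p' i < (L : ℤ)) ∧ x = z + ∑ i, p' i * g i
      · obtain ⟨p', hp'⟩ := hx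
        exact ⟨p', fun _ => hp'⟩
      · exact ⟨0, fun h => absurd h hx⟩
    choose p hp using hp0
    refine ⟨full ∪ G', union_subset (hfm.trans hmD) (hG'.trans sdiff_subset),
      fun d => if d ∈ full then t d else Y' d,
      fun x => if (∃ p' : Fin n → ℤ, (∀ i, 0 ≤ p' i ∧ p' i < (L : ℤ)) ∧
        x = z + ∑ i, p' i * g i) then p x else φ' x, ?_, ?_⟩
    · have h1 : Disjoint full G' := by
        rw [Finset.disjoint_left]
        intro d hd hd'
        exact (mem_sdiff.mp (hG' hd')).2 (hfm hd)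
      rw [card_union_of_disjoint h1]
      have h2 : D.card = meet.card + (D \ meet).card := by
        rw [card_sdiff_of_subset hmD]
        have := card_le_card hmD
        omega
      rw [h2]
      push_cast
      rw [mul_add]
      exact add_le_add hz2 hc'
    · intro d hd j hj
      have hdD : d ∈ D := by
        rcases mem_union.mp hd with h | h
        · exact hmD (hfm h)
        · exact (mem_sdiff.mp (hG' h)).1
      obtain ⟨hRH, hdR, _⟩ := hD d hdD
      have hjR : ∀ i, (j : ℤ) * (R d i : ℤ) ≤ ((k * R d i : ℕ) : ℤ) ∧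
          0 ≤ (j : ℤ) * (R d i : ℤ) := by
        intro i
        have h1 : j * R d i ≤ k * R d i := Nat.mul_le_mul_right _ hj
        constructor
        · exact_mod_cast h1
        · positivity
      have hjd : (j : ℤ) * d = ∑ i, ((j : ℤ) * (R d i : ℤ)) * g i := by
        conv_lhs => rw [hdR]
        rw [mul_sum]
        exact sum_congr rfl fun i _ => by ring
      by_cases hdf : d ∈ full
      · -- a full one
        obtain ⟨ht1, ht2⟩ := ht d hdf
        have e1 : y d + (j : ℤ) * d = z + ∑ i, (t d i + (j : ℤ) * (R d i : ℤ)) * g i := by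
          simp only [add_mul, sum_add_distrib]
          rw [← hjd]
          linarith
        have e2 : ∀ i, 0 ≤ t d i + (j : ℤ) * (R d i : ℤ) ∧
            t d i + (j : ℤ) * (R d i : ℤ) < (L : ℤ) := by
          intro i
          have h1 := ht1 i
          have h2 := hjR i
          constructor
          · linarith [h1.1, h2.2]
          · have h3 : ((L - k * R d i : ℕ) : ℤ) + ((k * R d i : ℕ) : ℤ) = (L : ℤ) := by
              rw [← Nat.cast_add, Nat.sub_add_cancel (hRH i).le]
            linarith [h1.2, h2.1]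
        have e3 : ∃ p' : Fin n → ℤ, (∀ i, 0 ≤ p' i ∧ p' i < (L : ℤ)) ∧
            y d + (j : ℤ) * d = z + ∑ i, p' i * g i := ⟨_, e2, e1⟩
        simp only [if_pos hdf]
        rw [if_pos e3]
        obtain ⟨h1, h2⟩ := hp _ e3
        refine uniq (L := L) hg (by omega) h1 e2 ?_
        have h3 := e1.symm.trans h2
        exact (add_left_cancel h3).symm
      · have hdG : d ∈ G' := (mem_union.mp hd).resolve_left hdf
        have hdm : d ∉ meet := (mem_sdiff.mp (hG' hdG)).2
        have e3 : ¬ ∃ p' : Fin n → ℤ, (∀ i, 0 ≤ p' i ∧ p' i < (L : ℤ)) ∧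
            y d + (j : ℤ) * d = z + ∑ i, p' i * g i := by
          rintro ⟨p', h1, h2⟩
          apply hdm
          rw [hmeet, mem_filter, hU, mem_image]
          refine ⟨hdD, fun i => (j : ℤ) * (R d i : ℤ) - p' i, ?_, ?_⟩
          · rw [mC]
            intro i
            have h3 := h1 i
            have h4 := hjR i
            constructor
            · show -(L : ℤ) < (j : ℤ) * (R d i : ℤ) - p' i
              linarith [h3.2, h4.2]
            · show (j : ℤ) * (R d i : ℤ) - p' i ≤ ((k * R d i : ℕ) : ℤ)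
              linarith [h3.1, h4.1]
          · simp only [sub_mul, sum_sub_distrib]
            rw [← hjd]
            linarith
        simp only [if_neg hdf]
        rw [if_neg e3]
        exact hφ' d hdG j hj

theorem t_GAP1 : S_GAP1 := by
  classical
  intro n k L τ g D R y hkR hg hD hτD
  rcases lt_or_ge τ 0 with hτ | hτ
  · refine ⟨∅, empty_subset _, fun _ _ => 0, ?_, fun j _ => by simp⟩
    rw [card_empty, Nat.cast_zero]
    exact mul_nonpos_of_nonpos_of_nonneg hτ.le (Nat.cast_nonneg _)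
  obtain ⟨G, hG, Y, φ, hc, hφ⟩ := claim (k := k) hτ hg R y D
    fun d hd => ⟨hkR d hd, hD d hd, hτD d hd⟩
  refine ⟨G, hG, Y, hc, fun j hj => ?_⟩
  have h1 : (G.image fun d => fun i : Fin n => Y d i + (j : ℤ) * (R d i : ℤ)) =
      (G.image fun d => y d + (j : ℤ) * d).image φ := by
    rw [image_image]
    refine image_congr fun d hd => ?_
    exact (hφ d hd j hj).symm
  rw [h1]
  exact card_image_le.trans (card_le_card (image_subset_image hG))

end Pool.Agent.Y918.AK
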